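import Mathlib

/-!
# Selmer groups over `ℚ` of a representation and of its quadratic twist: definitions
-/

set_option autoImplicit false

namespace Pool.Agent.H502.PQ

open Matrix IsLocalRing

/-- The class of the numbers `d`: the primes `7 mod 16`, and the products of a prime `5 mod 8` and of
a prime `3 mod 8`. -/
def InClass (d : ℕ) : Prop :=
  (d.Prime ∧ d % 16 = 7) ∨ ∃ p q : ℕ, p.Prime ∧ q.Prime ∧ p % 8 = 5 ∧ q % 8 = 3 ∧ d = p * q

/-- The decomposition group in `G_ℚ` of the place of `ℚ̄` given by the embedding `ι`; it is the absolute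
Galois group of `ℚ_p`. -/
def Dec {p : ℕ} [Fact p.Prime] (ι : AlgebraicClosure ℚ →ₐ[ℚ] PadicAlgCl p) :
    Subgroup Gal(AlgebraicClosure ℚ/ℚ) where
  carrier := {σ | ∃ τ : PadicAlgCl p ≃ₐ[ℚ_[p]] PadicAlgCl p, ∀ x, τ (ι x) = ι (σ x)}
  mul_mem' := by
    rintro σ σ' ⟨τ, h⟩ ⟨τ', h'⟩
    refine ⟨τ * τ', fun x => ?_⟩
    rw [AlgEquiv.mul_apply, h', h]
    rfl
  one_mem' := ⟨1, fun _ => rfl⟩
  inv_mem' := by
    rintro σ ⟨τ, h⟩
    refine ⟨τ⁻¹, fun x => τ.injective ?_⟩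
    rw [h]
    have h1 : σ (σ⁻¹ x) = x := AlgEquiv.apply_symm_apply σ x
    rw [h1]
    exact AlgEquiv.apply_symm_apply τ (ι x)

/-- Its inertia group: the automorphisms which are trivial on the residue field. -/
def Inr {p : ℕ} [Fact p.Prime] (ι : AlgebraicClosure ℚ →ₐ[ℚ] PadicAlgCl p) :
    Set Gal(AlgebraicClosure ℚ/ℚ) :=
  {σ | ∃ τ : PadicAlgCl p ≃ₐ[ℚ_[p]] PadicAlgCl p, (∀ x, τ (ι x) = ι (σ x)) ∧
    ∀ z : PadicAlgCl p, ‖z‖ ≤ 1 → ‖τ z - z‖ < 1}

/-- The `2`-adic cyclotomic character. -/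
noncomputable def cyc (σ : Gal(AlgebraicClosure ℚ/ℚ)) : ℤ_[2] :=
  (cyclotomicCharacter (AlgebraicClosure ℚ) 2 σ.toRingEquiv : ℤ_[2]ˣ)

section representations

variable {A : Type} [CommRing A] {n : ℕ}

/-- The representation `ρ` of `G_ℚ` is continuous, residually unipotent and unramified outside `2`. -/
structure Admissible [IsLocalRing A] [TopologicalSpace A]
    (ρ : Gal(AlgebraicClosure ℚ/ℚ) →* GL (Fin n) A) : Prop where
  cont : ∀ i j, Continuous fun σ => (ρ σ : Matrix (Fin n) (Fin n) A) i j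
  unipotent : ∀ σ, ∃ m : ℕ, ∀ i j,
    (((ρ σ : Matrix (Fin n) (Fin n) A) - 1) ^ m) i j ∈ maximalIdeal A
  unramified : ∀ (p : ℕ) [Fact p.Prime] (ι : AlgebraicClosure ℚ →ₐ[ℚ] PadicAlgCl p), p ≠ 2 →
    ∀ σ ∈ Inr ι, ρ σ = 1

variable (F : Type) [Field F] [Algebra A F]

/-- The matrix of `σ` on `V = F ^ n`. -/
noncomputable def mat (ρ : Gal(AlgebraicClosure ℚ/ℚ) →* GL (Fin n) A)
    (σ : Gal(AlgebraicClosure ℚ/ℚ)) : Matrix (Fin n) (Fin n) F :=
  (ρ σ : Matrix (Fin n) (Fin n) A).map (algebraMap A F)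

/-- The cyclotomic character with values in `F`. -/
noncomputable def cycF [Algebra ℤ_[2] A] (σ : Gal(AlgebraicClosure ℚ/ℚ)) : F :=
  algebraMap A F (algebraMap ℤ_[2] A (cyc σ))

open Classical in
/-- The matrix of `σ` on the twist of `V` by the quadratic character of `ℚ(s)`. -/
noncomputable def twist (s : AlgebraicClosure ℚ) (ρ : Gal(AlgebraicClosure ℚ/ℚ) →* GL (Fin n) A)
    (σ : Gal(AlgebraicClosure ℚ/ℚ)) : Matrix (Fin n) (Fin n) F :=
  if σ s = s then mat F ρ σ else -mat F ρ σ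

/-- `Ω` is an alternating pairing of `V` with itself with values in `F(1)`:
`Ω(σ x, σ y) = χ(σ) Ω(x, y)`. -/
structure SelfDual [Algebra ℤ_[2] A] (ρ : Gal(AlgebraicClosure ℚ/ℚ) →* GL (Fin n) A)
    (Ω : Matrix (Fin n) (Fin n) F) : Prop where
  alt : Ωᵀ = -Ω
  inv : ∀ (σ : Gal(AlgebraicClosure ℚ/ℚ)) (x y : Fin n → F),
    (mat F ρ σ *ᵥ x) ⬝ᵥ (Ω *ᵥ (mat F ρ σ *ᵥ y)) = cycF (A := A) F σ * (x ⬝ᵥ (Ω *ᵥ y))

/-- A function on a topological space with values in a finite product of copies of `F` is continuous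
if a nonzero multiple of it is continuous with values in the lattice given by `A`. -/
def Cont {G : Type} [TopologicalSpace G] [TopologicalSpace A] {k : ℕ} (f : G → Fin k → F) : Prop :=
  ∃ (a : A) (b : G → Fin k → A), algebraMap A F a ≠ 0 ∧ Continuous b ∧
    ∀ g i, algebraMap A F a * f g i = algebraMap A F (b g i)

/-- `l` is a continuous cocycle of the decomposition group with values in `V`. -/
structure LocalCocycle [TopologicalSpace A] (ρ : Gal(AlgebraicClosure ℚ/ℚ) →* GL (Fin n) A)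
    (ι : AlgebraicClosure ℚ →ₐ[ℚ] PadicAlgCl 2)
    (l : Dec ι → Fin n → F) : Prop where
  mul : ∀ δ δ' : Dec ι, l (δ * δ') = l δ + mat F ρ δ *ᵥ l δ'
  cont : Cont (A := A) F l

/-- The classes of the cocycles `l 0`, …, `l (k - 1)` are linearly independent in `H¹(ℚ_2, V)`. -/
def Independent (ρ : Gal(AlgebraicClosure ℚ/ℚ) →* GL (Fin n) A)
    (ι : AlgebraicClosure ℚ →ₐ[ℚ] PadicAlgCl 2) {k : ℕ}
    (l : Fin k → Dec ι → Fin n → F) : Prop :=
  ∀ a : Fin k → F, (∃ v : Fin n → F, ∀ δ : Dec ι, ∑ i, a i • l i δ = mat F ρ δ *ᵥ v - v) → a = 0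

/-- The class of the cocycle `x` is a linear combination of the classes of the `l i`. -/
def InSpan (ρ : Gal(AlgebraicClosure ℚ/ℚ) →* GL (Fin n) A)
    (ι : AlgebraicClosure ℚ →ₐ[ℚ] PadicAlgCl 2) {k : ℕ} (l : Fin k → Dec ι → Fin n → F)
    (x : Dec ι → Fin n → F) : Prop :=
  ∃ (a : Fin k → F) (v : Fin n → F), ∀ δ : Dec ι, x δ = ∑ i, a i • l i δ + (mat F ρ δ *ᵥ v - v)

/-- The cup product in `H²(ℚ_2, F(1))` of the classes of `l` and `x` is zero: the two-cocycle
`(δ, δ') ↦ Ω(l(δ), δ x(δ'))` is the coboundary of a continuous function `f`. -/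
def Orthogonal [TopologicalSpace A] [Algebra ℤ_[2] A] (ρ : Gal(AlgebraicClosure ℚ/ℚ) →* GL (Fin n) A)
    (Ω : Matrix (Fin n) (Fin n) F) (ι : AlgebraicClosure ℚ →ₐ[ℚ] PadicAlgCl 2)
    (l x : Dec ι → Fin n → F) : Prop :=
  ∃ f : Dec ι → F, Cont (A := A) F (fun δ (_ : Fin 1) => f δ) ∧
    ∀ δ δ' : Dec ι, l δ ⬝ᵥ (Ω *ᵥ (mat F ρ δ *ᵥ x δ')) =
      f δ + cycF (A := A) F (δ : Gal(AlgebraicClosure ℚ/ℚ)) * f δ' - f (δ * δ')

/-- The subspace `L` of `H¹(ℚ_2, V)` spanned by the classes of the `l i` is its own orthogonal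
complement. -/
def Lagrangian [TopologicalSpace A] [Algebra ℤ_[2] A] (ρ : Gal(AlgebraicClosure ℚ/ℚ) →* GL (Fin n) A)
    (Ω : Matrix (Fin n) (Fin n) F) (ι : AlgebraicClosure ℚ →ₐ[ℚ] PadicAlgCl 2)
    {k : ℕ} (l : Fin k → Dec ι → Fin n → F) : Prop :=
  ∀ x, LocalCocycle F ρ ι x → (InSpan F ρ ι l x ↔ ∀ i, Orthogonal F ρ Ω ι (l i) x)

end representations

section Selmer

variable {n : ℕ} {F : Type} [Field F]

lemma Cont.add {A G : Type} [CommRing A] [Algebra A F] [TopologicalSpace A] [IsTopologicalRing A]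
    [TopologicalSpace G] {k : ℕ} {f g : G → Fin k → F} (hf : Cont (A := A) F f)
    (hg : Cont (A := A) F g) : Cont (A := A) F (f + g) := by
  obtain ⟨a, b, ha, hb, hab⟩ := hf
  obtain ⟨a', b', ha', hb', hab'⟩ := hg
  refine ⟨a * a', fun x i => a' * b x i + a * b' x i, ?_, ?_, fun x i => ?_⟩
  · rw [map_mul]
    exact mul_ne_zero ha ha'
  · refine continuous_pi fun i => ?_
    exact (continuous_const.mul ((continuous_apply i).comp hb)).add
      (continuous_const.mul ((continuous_apply i).comp hb'))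
  · rw [map_add, map_mul, map_mul, map_mul, ← hab, ← hab', Pi.add_apply, Pi.add_apply]
    ring

lemma Cont.smul {A G : Type} [CommRing A] [Algebra A F] [IsFractionRing A F] [TopologicalSpace A]
    [IsTopologicalRing A] [TopologicalSpace G] {k : ℕ} {f : G → Fin k → F}
    (hf : Cont (A := A) F f) (c : F) : Cont (A := A) F (c • f) := by
  obtain ⟨a, b, ha, hb, hab⟩ := hf
  obtain ⟨x, y, hy, rfl⟩ := IsFractionRing.div_surjective (A := A) c
  have hy0 : algebraMap A F y ≠ 0 := by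
    intro h
    rw [← map_zero (algebraMap A F)] at h
    have h1 := IsFractionRing.injective A F h
    rw [h1] at hy
    have h2 := (mem_nonZeroDivisors_iff.1 hy).1 1 (by simp)
    have h3 : (1 : F) = 0 := by rw [← map_one (algebraMap A F), h2, map_zero]
    exact one_ne_zero h3
  refine ⟨a * y, fun g i => x * b g i, ?_, ?_, fun g i => ?_⟩
  · rw [map_mul]
    exact mul_ne_zero ha hy0
  · exact continuous_pi fun i => continuous_const.mul ((continuous_apply i).comp hb)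
  · rw [map_mul, map_mul, ← hab, Pi.smul_apply, Pi.smul_apply, smul_eq_mul]
    field_simp

lemma Cont.zero {A G : Type} [CommRing A] [Algebra A F] [TopologicalSpace A]
    [TopologicalSpace G] {k : ℕ} : Cont (A := A) F (0 : G → Fin k → F) :=
  ⟨1, 0, by simp, continuous_const, fun g i => by simp⟩

/-- The coboundaries `σ ↦ σ v - v` of the group `G_ℚ` acting on `F ^ n` by the matrices `M σ`. -/
def coboundaries (M : Gal(AlgebraicClosure ℚ/ℚ) → Matrix (Fin n) (Fin n) F) :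
    Submodule F (Gal(AlgebraicClosure ℚ/ℚ) → Fin n → F) where
  carrier := {z | ∃ v : Fin n → F, ∀ σ, z σ = M σ *ᵥ v - v}
  add_mem' := by
    rintro z z' ⟨v, h⟩ ⟨v', h'⟩
    refine ⟨v + v', fun σ => ?_⟩
    rw [Pi.add_apply, h, h', Matrix.mulVec_add]
    abel
  zero_mem' := ⟨0, fun σ => by simp⟩
  smul_mem' := by
    rintro a z ⟨v, h⟩
    refine ⟨a • v, fun σ => ?_⟩
    rw [Pi.smul_apply, h, Matrix.mulVec_smul, smul_sub]

/-- **The Selmer group**, on the level of cocycles. The group `G_ℚ` acts on `F ^ n` by the matrices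
`M σ`. The elements are the continuous cocycles with values in `F ^ n` whose classes are trivial on
the inertia groups at the odd primes and whose localizations at `2` are in the space spanned by the
classes of the `l i`. -/
def selmer (A : Type) [CommRing A] [Algebra A F] [IsFractionRing A F] [TopologicalSpace A]
    [IsTopologicalRing A] (M : Gal(AlgebraicClosure ℚ/ℚ) → Matrix (Fin n) (Fin n) F)
    (ι : AlgebraicClosure ℚ →ₐ[ℚ] PadicAlgCl 2) {k : ℕ}
    (l : Fin k → Dec ι → Fin n → F) : Submodule F (Gal(AlgebraicClosure ℚ/ℚ) → Fin n → F) where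
  carrier := {z | (∀ σ τ, z (σ * τ) = z σ + M σ *ᵥ z τ) ∧ Cont (A := A) F z ∧
    (∀ (p : ℕ) [Fact p.Prime] (j : AlgebraicClosure ℚ →ₐ[ℚ] PadicAlgCl p), p ≠ 2 →
      ∃ v : Fin n → F, ∀ σ ∈ Inr j, z σ = M σ *ᵥ v - v) ∧
    ∃ (a : Fin k → F) (v : Fin n → F), ∀ δ : Dec ι, z δ = ∑ i, a i • l i δ + (M δ *ᵥ v - v)}
  add_mem' := by
    rintro z z' ⟨h1, h2, h3, a, v, h4⟩ ⟨h1', h2', h3', a', v', h4'⟩
    refine ⟨fun σ τ => ?_, h2.add h2', fun p _ j hp => ?_, a + a', v + v', fun δ => ?_⟩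
    · rw [Pi.add_apply, Pi.add_apply, Pi.add_apply, h1, h1', Matrix.mulVec_add]
      abel
    · obtain ⟨w, hw⟩ := h3 p j hp
      obtain ⟨w', hw'⟩ := h3' p j hp
      refine ⟨w + w', fun σ hσ => ?_⟩
      rw [Pi.add_apply, hw σ hσ, hw' σ hσ, Matrix.mulVec_add]
      abel
    · rw [Pi.add_apply, h4, h4', Matrix.mulVec_add]
      simp only [Pi.add_apply, add_smul, Finset.sum_add_distrib]
      abel
  zero_mem' := ⟨fun σ τ => by simp, Cont.zero, fun p _ j _ => ⟨0, fun σ _ => by simp⟩,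
    0, 0, fun δ => by simp⟩
  smul_mem' := by
    rintro c z ⟨h1, h2, h3, a, v, h4⟩
    refine ⟨fun σ τ => ?_, h2.smul c, fun p _ j hp => ?_, c • a, c • v, fun δ => ?_⟩
    · rw [Pi.smul_apply, Pi.smul_apply, Pi.smul_apply, h1, Matrix.mulVec_smul, smul_add]
    · obtain ⟨w, hw⟩ := h3 p j hp
      refine ⟨c • w, fun σ hσ => ?_⟩
      rw [Pi.smul_apply, hw σ hσ, Matrix.mulVec_smul, smul_sub]
    · rw [Pi.smul_apply, h4, Matrix.mulVec_smul, smul_add, smul_sub, Finset.smul_sum]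
      simp only [Pi.smul_apply, smul_eq_mul, mul_smul]

/-- The Selmer group: the quotient of the space of Selmer cocycles by the coboundaries. -/
abbrev SelmerGroup (A : Type) [CommRing A] [Algebra A F] [IsFractionRing A F] [TopologicalSpace A]
    [IsTopologicalRing A] (M : Gal(AlgebraicClosure ℚ/ℚ) → Matrix (Fin n) (Fin n) F)
    (ι : AlgebraicClosure ℚ →ₐ[ℚ] PadicAlgCl 2) {k : ℕ}
    (l : Fin k → Dec ι → Fin n → F) : Type :=
  selmer A M ι l ⧸ (coboundaries M).submoduleOf (selmer A M ι l)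

/-- The Selmer group has finite dimension `r`. -/
def SelmerDim (A : Type) [CommRing A] [Algebra A F] [IsFractionRing A F] [TopologicalSpace A]
    [IsTopologicalRing A] (M : Gal(AlgebraicClosure ℚ/ℚ) → Matrix (Fin n) (Fin n) F)
    (ι : AlgebraicClosure ℚ →ₐ[ℚ] PadicAlgCl 2) {k : ℕ}
    (l : Fin k → Dec ι → Fin n → F) (r : ℕ) : Prop :=
  Module.Finite F (SelmerGroup A M ι l) ∧ Module.finrank F (SelmerGroup A M ι l) = r

end Selmer

end Pool.Agent.H502.PQ
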