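import Pool.Agent.H502.PQ.Map

/-!
# Descent of Selmer classes from `ℚ(s)` to `ℚ`
-/

set_option autoImplicit false
set_option linter.unusedSectionVars false

namespace Pool.Agent.H502.PQ

open Pool.Agent.Y715.Gi (QB KK GK)
open Pool.Agent.Z384
open Pool.Agent.H76.PS
open Topology Matrix IsLocalRing

variable {s : QBar} {d : ℕ} {A : Type} [CommRing A] [IsDomain A] [IsLocalRing A]
  [TopologicalSpace A] [IsTopologicalRing A] {F : Type} [Field F] [Algebra A F] [IsFractionRing A F]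
  {n : ℕ} {ρ : GQ →* GL (Fin n) A}

lemma mat_mul (σ τ : GQ) : mat F ρ (σ * τ) = mat F ρ σ * mat F ρ τ := by
  unfold mat
  rw [map_mul, Units.val_mul, Matrix.map_mul]

lemma mat_one : mat F ρ 1 = 1 := by
  unfold mat
  rw [map_one, Units.val_one, Matrix.map_one _ (map_zero _) (map_one _)]

variable (F) in
/-- the action -/
noncomputable def ac (ρ : GQ →* GL (Fin n) A) (σ : GQ) (v : Fin n → F) : Fin n → F :=
  mat F ρ σ *ᵥ v

lemma ac_mul (σ τ : GQ) (v : Fin n → F) : ac F ρ (σ * τ) v = ac F ρ σ (ac F ρ τ v) := by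
  unfold ac
  rw [mat_mul, Matrix.mulVec_mulVec]

lemma ac_one (v : Fin n → F) : ac F ρ 1 v = v := by
  unfold ac
  rw [mat_one, Matrix.one_mulVec]

lemma ac_add (σ : GQ) (v w : Fin n → F) : ac F ρ σ (v + w) = ac F ρ σ v + ac F ρ σ w :=
  Matrix.mulVec_add _ _ _

lemma ac_sub (σ : GQ) (v w : Fin n → F) : ac F ρ σ (v - w) = ac F ρ σ v - ac F ρ σ w :=
  Matrix.mulVec_sub _ _ _

lemma ac_smul (σ : GQ) (a : F) (v : Fin n → F) : ac F ρ σ (a • v) = a • ac F ρ σ v :=
  Matrix.mulVec_smul _ _ _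

lemma ac_neg (σ : GQ) (v : Fin n → F) : ac F ρ σ (-v) = - ac F ρ σ v :=
  Matrix.mulVec_neg _ _

open Classical in
variable (F) in
/-- the sign of `σ` -/
noncomputable def sg (s : QBar) (η : F) (σ : GQ) : F := if σ s = s then 1 else η

open Classical in
variable (F) in
/-- the matrices of the twisted representation -/
noncomputable def mt (s : QBar) (ρ : GQ →* GL (Fin n) A) (η : F) (σ : GQ) :
    Matrix (Fin n) (Fin n) F := if σ s = s then mat F ρ σ else η • mat F ρ σ

lemma mt_mulVec (η : F) (σ : GQ) (v : Fin n → F) :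
    mt F s ρ η σ *ᵥ v = sg F s η σ • ac F ρ σ v := by
  unfold mt sg ac
  split_ifs
  · rw [one_smul]
  · rw [Matrix.smul_mulVec]

lemma mt_one_eq : mt F s ρ 1 = mat F ρ := by
  funext σ
  unfold mt
  split_ifs <;> simp

lemma mt_neg_one_eq : mt F s ρ (-1) = twist F s ρ := by
  funext σ
  unfold mt twist
  split_ifs <;> simp

lemma sg_pos (η : F) {σ : GQ} (h : σ s = s) : sg F s η σ = 1 := if_pos h

lemma sg_neg (η : F) {σ : GQ} (h : ¬ σ s = s) : sg F s η σ = η := if_neg h

/-- the restriction of functions -/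
noncomputable def res (s : QBar) : (GQ → Fin n → F) →ₗ[F] (GK s → Fin n → F) where
  toFun z σ := z (rsc s σ)
  map_add' _ _ := rfl
  map_smul' _ _ := rfl

lemma res_apply (z : GQ → Fin n → F) (σ : GK s) : res s z σ = z (rsc s σ) := rfl

/-- the data: `c` is a complex conjugation, `s ^ 2 = -d`. -/
structure Dt (s : QBar) (d : ℕ) (c : GQ) (cj : GK s → GK s) : Prop where
  hs : s ^ 2 = -(d : QBar)
  hd : Fld d
  hc : IsConj c
  hcj : ∀ σ x, cj σ x = c (σ (c x))

lemma exists_cj {c : GQ} (hs : s ^ 2 = -(d : QBar)) (hd : Fld d) (hc : IsConj c) :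
    ∃ cj : GK s → GK s, ∀ (σ : GK s) (x : QBar), cj σ x = c (σ (c x)) := by
  have h : ∀ σ : GK s, (c * rsc s σ * c) s = s := by
    intro σ
    show c (rsc s σ (c s)) = s
    rw [conj_s hs hd.ne_zero hc, map_neg, rsc_fix, map_neg, conj_s hs hd.ne_zero hc, neg_neg]
  exact ⟨fun σ => toGK _ (h σ), fun σ x => rfl⟩

variable {c : GQ} {cj : GK s → GK s} (D : Dt s d c cj)

include D

lemma Dt.cc : c * c = 1 := by
  ext x
  exact D.hc.invol x

lemma Dt.cs : c s = -s := conj_s D.hs D.hd.ne_zero D.hc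

lemma Dt.cns : ¬ c s = s := by
  rw [D.cs]
  exact s_ne D.hs D.hd.ne_zero

lemma Dt.cj_eq (σ : GK s) : rsc s (cj σ) = c * rsc s σ * c := by
  ext x
  rw [rsc_apply, D.hcj]
  rfl

lemma Dt.mul_c {σ : GQ} (h : ¬ σ s = s) : (σ * c) s = s := by
  have h1 : σ s = -s := (sq_fix D.hs σ).resolve_left h
  show σ (c s) = s
  rw [D.cs, map_neg, h1, neg_neg]

lemma Dt.mul_ne {σ : GQ} (h : σ s = s) : ¬ (σ * c) s = s := by
  show ¬ σ (c s) = s
  rw [D.cs, map_neg, h]
  exact s_ne D.hs D.hd.ne_zero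

lemma Dt.mul_mul {σ τ : GQ} (h : ¬ σ s = s) (h' : ¬ τ s = s) : (σ * τ) s = s := by
  have h1 : σ s = -s := (sq_fix D.hs σ).resolve_left h
  have h2 : τ s = -s := (sq_fix D.hs τ).resolve_left h'
  show σ (τ s) = s
  rw [h2, map_neg, h1, neg_neg]

lemma Dt.mul_ne' {σ τ : GQ} (h : σ s = s) (h' : ¬ τ s = s) : ¬ (σ * τ) s = s := by
  have h2 : τ s = -s := (sq_fix D.hs τ).resolve_left h'
  show ¬ σ (τ s) = s
  rw [h2, map_neg, h]
  exact s_ne D.hs D.hd.ne_zero

lemma Dt.mul_ne'' {σ τ : GQ} (h : ¬ σ s = s) (h' : τ s = s) : ¬ (σ * τ) s = s := by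
  show ¬ σ (τ s) = s
  rw [h']
  exact h

lemma Dt.sg_mul {η : F} (hη : η * η = 1) (σ τ : GQ) :
    sg F s η (σ * τ) = sg F s η σ * sg F s η τ := by
  by_cases h : σ s = s <;> by_cases h' : τ s = s
  · rw [sg_pos η h, sg_pos η h', sg_pos η (show (σ * τ) s = s by
      show σ (τ s) = s
      rw [h', h]), mul_one]
  · rw [sg_pos η h, sg_neg η h', sg_neg η (D.mul_ne' h h'), one_mul]
  · rw [sg_neg η h, sg_pos η h', sg_neg η (D.mul_ne'' h h'), mul_one]
  · rw [sg_neg η h, sg_neg η h', sg_pos η (D.mul_mul h h'), hη]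

omit D in
lemma ac_cc (hcc : c * c = 1) (v : Fin n → F) : ac F ρ c (ac F ρ c v) = v := by
  rw [← ac_mul, hcc, ac_one]

/-! ### The conjugation of cocycles -/

omit D in
variable (ρ) in
/-- the conjugate of a function -/
noncomputable def cz (c : GQ) (cj : GK s → GK s) (z : GK s → Fin n → F) : GK s → Fin n → F :=
  fun σ => ac F ρ c (z (cj σ))

lemma Dt.cz_cz (z : GK s → Fin n → F) : cz ρ c cj (cz ρ c cj z) = z := by
  funext σ
  unfold cz
  rw [ac_cc D.cc]
  congr 1
  exact cj_cj D.hc D.hcj σ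

/-- `c` acts on the restriction of a cocycle of `G_ℚ` with values in the twist as the sign, up to a
coboundary. -/
lemma Dt.cz_res {η : F} (hη : η * η = 1) {Z : GQ → Fin n → F}
    (hZ : ∀ σ τ, Z (σ * τ) = Z σ + mt F s ρ η σ *ᵥ Z τ) (σ : GK s) :
    cz ρ c cj (res s Z) σ = η • res s Z σ + (ac F ρ (rsc s σ) (η • Z c) - η • Z c) := by
  have h1 : Z 1 = 0 := by
    have := hZ 1 1
    rw [mul_one, mt_mulVec, sg_pos η (show (1 : GQ) s = s from rfl), ac_one, one_smul] at this
    simpa using this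
  have hZc : Z c + η • ac F ρ c (Z c) = 0 := by
    have := hZ c c
    rw [D.cc, h1, mt_mulVec, sg_neg η D.cns] at this
    exact this.symm
  have hZc' : ac F ρ c (Z c) = -(η • Z c) := by
    have h2 : η • (Z c + η • ac F ρ c (Z c)) = 0 := by rw [hZc, smul_zero]
    rw [smul_add, smul_smul, hη, one_smul] at h2
    exact eq_neg_of_add_eq_zero_right h2
  have h3 : Z (c * rsc s σ * c) = Z c + η • ac F ρ c (Z (rsc s σ)) +
      η • ac F ρ c (ac F ρ (rsc s σ) (Z c)) := by
    rw [hZ, hZ, mt_mulVec, mt_mulVec, sg_neg η D.cns, sg_neg η (D.mul_ne'' D.cns (rsc_fix σ)),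
      ac_mul]
  unfold cz
  rw [res_apply, D.cj_eq, h3, ac_add, ac_add, ac_smul, ac_smul, ac_cc D.cc, ac_cc D.cc, hZc',
    ac_smul, res_apply]
  abel

/-! ### Extension of cocycles -/

omit D in
open Classical in
/-- the extension of a function to `G_ℚ` -/
noncomputable def ex {X : Type} (D : Dt s d c cj) (z : GK s → X) (σ : GQ) : X :=
  if h : σ s = s then z (toGK σ h) else z (toGK (σ * c) (D.mul_c h))

omit D in
lemma ex_pos {X : Type} (D : Dt s d c cj) (z : GK s → X) {σ : GQ} (h : σ s = s) :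
    ex D z σ = z (toGK σ h) := dif_pos h

omit D in
lemma ex_neg {X : Type} (D : Dt s d c cj) (z : GK s → X) {σ : GQ} (h : ¬ σ s = s) :
    ex D z σ = z (toGK (σ * c) (D.mul_c h)) := dif_neg h

omit D in
lemma ex_rsc {X : Type} (D : Dt s d c cj) (z : GK s → X) (σ : GK s) : ex D z (rsc s σ) = z σ := by
  rw [ex_pos D z (rsc_fix σ), toGK_rsc]

omit D in
lemma toGK_congr {σ τ : GQ} (h : σ s = s) (e : σ = τ) : toGK σ h = toGK τ (e ▸ h) := by
  subst e; rfl

omit D in
lemma toGK_mul {σ τ : GQ} (h : σ s = s) (h' : τ s = s) (h'' : (σ * τ) s = s) :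
    toGK (σ * τ) h'' = toGK σ h * toGK τ h' := by
  ext x; rfl

lemma Dt.toGK_cj {τ : GQ} (h : τ s = s) (h' : (c * τ * c) s = s) :
    toGK (c * τ * c) h' = cj (toGK τ h) := by
  ext x
  rw [D.hcj]
  rfl

lemma Dt.ex_mul {η : F} {z : GK s → Fin n → F}
    (hz : ∀ σ τ, z (σ * τ) = z σ + ac F ρ (rsc s σ) (z τ)) (hcz : cz ρ c cj z = η • z) (σ τ : GQ) :
    ex D z (σ * τ) = ex D z σ + mt F s ρ η σ *ᵥ ex D z τ := by
  have hcc := D.cc
  have hzc : ∀ τ : GK s, z (cj τ) = η • ac F ρ c (z τ) := by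
    intro τ
    have h1 := congrFun hcz τ
    unfold cz at h1
    have h2 := congrArg (ac F ρ c) h1
    rw [ac_cc hcc, Pi.smul_apply, ac_smul] at h2
    exact h2
  rw [mt_mulVec]
  by_cases h : σ s = s
  · by_cases h' : τ s = s
    · have h'' : (σ * τ) s = s := by
        show σ (τ s) = s
        rw [h', h]
      rw [ex_pos D z h, ex_pos D z h', ex_pos D z h'', toGK_mul h h' h'', hz, rsc_toGK,
        sg_pos η h, one_smul]
    · have h'' := D.mul_ne' h h'
      have e1 : toGK (σ * τ * c) (D.mul_c h'') = toGK σ h * toGK (τ * c) (D.mul_c h') := by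
        ext x; rfl
      rw [ex_pos D z h, ex_neg D z h', ex_neg D z h'', e1, hz, rsc_toGK, sg_pos η h, one_smul]
  · by_cases h' : τ s = s
    · have h'' := D.mul_ne'' h h'
      have hct : (c * τ * c) s = s := by
        have := rsc_fix (cj (toGK τ h'))
        rwa [D.cj_eq, rsc_toGK] at this
      have e1 : toGK (σ * τ * c) (D.mul_c h'') = toGK (σ * c) (D.mul_c h) * cj (toGK τ h') := by
        rw [← D.toGK_cj h' hct]
        ext x
        show σ (τ (c x)) = σ (c (c (τ (c x))))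
        rw [D.hc.invol]
      have e2 : σ * c * c = σ := by rw [mul_assoc, hcc, mul_one]
      rw [ex_neg D z h, ex_pos D z h', ex_neg D z h'', e1, hz, rsc_toGK, hzc, sg_neg η h, ac_smul,
        ← ac_mul, e2]
    · have h'' := D.mul_mul h h'
      have htc := D.mul_c h'
      have hct : (c * (τ * c) * c) s = s := by
        have := rsc_fix (cj (toGK (τ * c) htc))
        rwa [D.cj_eq, rsc_toGK] at this
      have e1 : toGK (σ * τ) h'' = toGK (σ * c) (D.mul_c h) * cj (toGK (τ * c) htc) := by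
        rw [← D.toGK_cj htc hct]
        ext x
        show σ (τ x) = σ (c (c (τ (c (c x)))))
        rw [D.hc.invol, D.hc.invol]
      have e2 : σ * c * c = σ := by rw [mul_assoc, hcc, mul_one]
      rw [ex_neg D z h, ex_neg D z h', ex_pos D z h'', e1, hz, rsc_toGK, hzc, sg_neg η h, ac_smul,
        ← ac_mul, e2]

lemma Dt.ex_cont {X : Type} [TopologicalSpace X] {z : GK s → X} (hz : Continuous z) :
    Continuous (ex D z) := by
  have hopen : IsOpen {σ : GQ | σ s = s} := isOpen_fixQ s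
  have hrange : Set.range (rsc s) = {σ : GQ | σ s = s} := by
    ext σ
    constructor
    · rintro ⟨τ, rfl⟩
      exact rsc_fix τ
    · intro h
      exact ⟨toGK σ h, rsc_toGK σ h⟩
  have hemb : IsOpenEmbedding (rsc s) := by
    refine ⟨⟨rsc_inducing, rsc_inj⟩, ?_⟩
    rw [hrange]
    exact hopen
  have hpos : ∀ σ : GQ, σ s = s → ContinuousAt (ex D z) σ := by
    intro σ h
    have h1 : rsc s (toGK σ h) = σ := rsc_toGK σ h
    rw [← h1, hemb.continuousAt_iff.symm]
    have h2 : (ex D z) ∘ rsc s = z := by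
      funext τ
      exact ex_rsc D z τ
    rw [h2]
    exact hz.continuousAt
  rw [continuous_iff_continuousAt]
  intro σ
  by_cases h : σ s = s
  · exact hpos σ h
  · have h2 : (ex D z) =ᶠ[𝓝 σ] (ex D z) ∘ (fun τ => τ * c) := by
      have hcont : Continuous fun τ : GQ => τ * c := continuous_mul_const c
      have ho : IsOpen ((fun τ : GQ => τ * c) ⁻¹' {σ : GQ | σ s = s}) := hopen.preimage hcont
      filter_upwards [ho.mem_nhds (show σ ∈ _ from D.mul_c h)] with τ hτ
      have hτ' : (τ * c) s = s := hτ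
      have hτn : ¬ τ s = s := by
        intro h3
        exact D.mul_ne h3 hτ'
      show ex D z τ = ex D z (τ * c)
      rw [ex_neg D z hτn, ex_pos D z hτ']
    refine ContinuousAt.congr ?_ h2.symm
    have hcont : Continuous fun τ : GQ => τ * c := continuous_mul_const c
    exact ContinuousAt.comp (hpos _ (D.mul_c h)) hcont.continuousAt

/-! ### Cocycles which are coboundaries on the subgroup of index two -/

lemma Dt.cob {η : F} (hη : η * η = 1) (h2 : (2 : F) ≠ 0) {Z : GQ → Fin n → F}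
    (hZ : ∀ σ τ, Z (σ * τ) = Z σ + mt F s ρ η σ *ᵥ Z τ) {w : Fin n → F}
    (hw : ∀ σ : GK s, Z (rsc s σ) = ac F ρ (rsc s σ) w - w) :
    Z ∈ coboundaries (mt F s ρ η) := by
  have hcc := D.cc
  set u : Fin n → F := Z c - (η • ac F ρ c w - w) with hu
  -- the values outside the subgroup
  have h1 : ∀ τ : GQ, τ s = s → Z τ = ac F ρ τ w - w := by
    intro τ h
    have := hw (toGK τ h)
    rwa [rsc_toGK] at this
  have hval : ∀ τ : GQ, τ s = s → Z (τ * c) = ac F ρ τ w - w + ac F ρ τ (Z c) := by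
    intro τ h
    rw [hZ, mt_mulVec, sg_pos η h, one_smul, h1 τ h]
  have hval' : ∀ τ : GQ, τ s = s → Z (c * τ) = Z c + η • ac F ρ c (ac F ρ τ w - w) := by
    intro τ h
    rw [hZ, mt_mulVec, sg_neg η D.cns, h1 τ h]
  have hinv : ∀ τ : GQ, τ s = s → ac F ρ τ u = u := by
    intro τ h
    have hct : (c * τ * c) s = s := by
      have := rsc_fix (cj (toGK τ h))
      rwa [D.cj_eq, rsc_toGK] at this
    have e1 : τ * c = c * (c * τ * c) := by
      rw [← mul_assoc, ← mul_assoc, hcc, one_mul]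
    have e2 := hval τ h
    rw [e1, hval' _ hct, ac_sub, ← ac_mul, ← mul_assoc, ← mul_assoc, hcc, one_mul] at e2
    rw [hu, ac_sub, ac_sub, ac_smul, ← ac_mul]
    rw [smul_sub] at e2
    have e3 : ac F ρ τ (Z c) = Z c + (η • ac F ρ (τ * c) w - η • ac F ρ c w) -
        (ac F ρ τ w - w) := by
      rw [e2]; abel
    rw [e3]
    abel
  have hc0 : Z c + η • ac F ρ c (Z c) = 0 := by
    have h3 := hZ c c
    have h4 : Z 1 = 0 := by
      have := hZ 1 1
      rw [mul_one, mt_mulVec, sg_pos η (show (1 : GQ) s = s from rfl), ac_one, one_smul] at this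
      simpa using this
    rw [hcc, h4, mt_mulVec, sg_neg η D.cns] at h3
    exact h3.symm
  have hcu : η • ac F ρ c u = -u := by
    rw [hu, ac_sub, ac_sub, ac_smul, ac_cc hcc, smul_sub, smul_sub, smul_smul, hη, one_smul]
    have h5 : η • ac F ρ c (Z c) = - Z c := eq_neg_of_add_eq_zero_right hc0
    rw [h5]
    abel
  refine ⟨w - (2 : F)⁻¹ • u, fun σ => ?_⟩
  rw [mt_mulVec, ac_sub, ac_smul]
  have h22 : (2 : F)⁻¹ • u + (2 : F)⁻¹ • u = u := by
    rw [← add_smul]
    have : (2 : F)⁻¹ + (2 : F)⁻¹ = 1 := by field_simp; norm_num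
    rw [this, one_smul]
  by_cases h : σ s = s
  · rw [sg_pos η h, one_smul, h1 σ h, hinv σ h]
    abel
  · have hτ := D.mul_c h
    have e1 : σ = (σ * c) * c := by rw [mul_assoc, hcc, mul_one]
    have e2 : Z σ = ac F ρ (σ * c) w - w + ac F ρ (σ * c) (Z c) := by
      conv_lhs => rw [e1]
      rw [hval _ hτ]
    have e3 : ac F ρ (σ * c) (Z c) = u + η • ac F ρ σ w - ac F ρ (σ * c) w := by
      have e4 : Z c = u + (η • ac F ρ c w - w) := by rw [hu]; abel
      have e4' : ac F ρ (σ * c) (Z c) = ac F ρ (σ * c) u + ac F ρ (σ * c) (η • ac F ρ c w - w) := by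
        rw [← ac_add, ← e4]
      rw [e4', hinv _ hτ, ac_sub, ac_smul, ← ac_mul, ← e1]
      abel
    have e5 : η • ac F ρ σ u = -u := by
      have : ac F ρ σ u = ac F ρ (σ * c) (ac F ρ c u) := by rw [← ac_mul, ← e1]
      rw [this, ← ac_smul, hcu, ac_neg, hinv _ hτ]
    rw [e2, e3, sg_neg η h, smul_sub, smul_smul, mul_comm η, ← smul_smul, e5, smul_neg]
    have e6 : u = (2 : F)⁻¹ • u + (2 : F)⁻¹ • u := h22.symm
    nth_rewrite 1 [e6]
    abel

end Pool.Agent.H502.PQ
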