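import Pool.Agent.H502.PQ.Sel

/-!
# Selmer groups over `ℚ` of a representation and of its quadratic twist: the theorem
-/

set_option autoImplicit false
set_option linter.unusedSectionVars false

namespace Pool.Agent.H502.PQ

open Pool.Agent.Y715.Gi (QB KK GK)
open Pool.Agent.Y715.Nr
open Pool.Agent.Z384
open Pool.Agent.H76.PS
open Topology Matrix IsLocalRing

/-! ### Linear algebra -/

section linear

variable {F X₁ X₂ Y : Type} [Field F] [AddCommGroup X₁] [Module F X₁] [AddCommGroup X₂]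
  [Module F X₂] [AddCommGroup Y] [Module F Y]

theorem split_equiv (S₁ B₁ : Submodule F X₁) (S₂ B₂ : Submodule F X₂) (T B : Submodule F Y)
    (r₁ : X₁ →ₗ[F] Y) (r₂ : X₂ →ₗ[F] Y) (h₁ : ∀ x ∈ S₁, r₁ x ∈ T) (h₂ : ∀ x ∈ S₂, r₂ x ∈ T)
    (hB₁ : ∀ x ∈ B₁, r₁ x ∈ B) (hB₂ : ∀ x ∈ B₂, r₂ x ∈ B)
    (hs : ∀ y ∈ T, ∃ x₁ ∈ S₁, ∃ x₂ ∈ S₂, y - (r₁ x₁ + r₂ x₂) ∈ B)
    (hi : ∀ x₁ ∈ S₁, ∀ x₂ ∈ S₂, r₁ x₁ + r₂ x₂ ∈ B → x₁ ∈ B₁ ∧ x₂ ∈ B₂) :
    Nonempty (((S₁ ⧸ B₁.submoduleOf S₁) × (S₂ ⧸ B₂.submoduleOf S₂)) ≃ₗ[F]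
      (T ⧸ B.submoduleOf T)) := by
  let g₁ : (S₁ ⧸ B₁.submoduleOf S₁) →ₗ[F] (T ⧸ B.submoduleOf T) :=
    Submodule.mapQ _ _ (r₁.restrict h₁) (fun x hx => hB₁ _ hx)
  let g₂ : (S₂ ⧸ B₂.submoduleOf S₂) →ₗ[F] (T ⧸ B.submoduleOf T) :=
    Submodule.mapQ _ _ (r₂.restrict h₂) (fun x hx => hB₂ _ hx)
  refine ⟨LinearEquiv.ofBijective (g₁.coprod g₂) ⟨?_, ?_⟩⟩
  · rw [← LinearMap.ker_eq_bot, LinearMap.ker_eq_bot']
    rintro ⟨x₁, x₂⟩ h
    obtain ⟨x₁, rfl⟩ := Submodule.Quotient.mk_surjective _ x₁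
    obtain ⟨x₂, rfl⟩ := Submodule.Quotient.mk_surjective _ x₂
    have h3 : Submodule.Quotient.mk (p := B.submoduleOf T)
        (r₁.restrict h₁ x₁ + r₂.restrict h₂ x₂) = 0 := h
    rw [Submodule.Quotient.mk_eq_zero] at h3
    obtain ⟨h4, h5⟩ := hi x₁ x₁.2 x₂ x₂.2 h3
    rw [Prod.mk_eq_zero]
    exact ⟨(Submodule.Quotient.mk_eq_zero _).2 h4, (Submodule.Quotient.mk_eq_zero _).2 h5⟩
  · intro y
    obtain ⟨y, rfl⟩ := Submodule.Quotient.mk_surjective _ y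
    obtain ⟨x₁, hx₁, x₂, hx₂, h⟩ := hs y y.2
    refine ⟨(Submodule.Quotient.mk ⟨x₁, hx₁⟩, Submodule.Quotient.mk ⟨x₂, hx₂⟩), ?_⟩
    show Submodule.Quotient.mk (p := B.submoduleOf T)
        (r₁.restrict h₁ ⟨x₁, hx₁⟩ + r₂.restrict h₂ ⟨x₂, hx₂⟩) = Submodule.Quotient.mk y
    refine Eq.symm ((Submodule.Quotient.eq _).2 ?_)
    exact h

theorem finrank_of_basis (T B : Submodule F Y) {r : ℕ} (z : Fin r → Y) (hz : ∀ t, z t ∈ T)
    (hi : ∀ a : Fin r → F, ∑ t, a t • z t ∈ B → a = 0)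
    (hs : ∀ y ∈ T, ∃ a : Fin r → F, y - ∑ t, a t • z t ∈ B) :
    Module.Finite F (T ⧸ B.submoduleOf T) ∧ Module.finrank F (T ⧸ B.submoduleOf T) = r := by
  let e : Fin r → (T ⧸ B.submoduleOf T) := fun t => Submodule.Quotient.mk ⟨z t, hz t⟩
  have hsum : ∀ a : Fin r → F, ∑ t, a t • e t =
      Submodule.Quotient.mk (p := B.submoduleOf T) (∑ t, a t • (⟨z t, hz t⟩ : T)) := by
    intro a
    have h1 : ∀ t, a t • e t = (B.submoduleOf T).mkQ (a t • (⟨z t, hz t⟩ : T)) := fun t => rfl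
    rw [Finset.sum_congr rfl fun t _ => h1 t, ← map_sum]
    rfl
  have hval : ∀ a : Fin r → F, ((∑ t, a t • (⟨z t, hz t⟩ : T) : T) : Y) = ∑ t, a t • z t := by
    intro a
    rw [Submodule.coe_sum]
    rfl
  have hli : LinearIndependent F e := by
    rw [Fintype.linearIndependent_iff]
    intro a ha i
    rw [hsum, Submodule.Quotient.mk_eq_zero] at ha
    have h2 : ∑ t, a t • z t ∈ B := by
      rw [← hval]
      exact ha
    exact congrFun (hi a h2) i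
  have hsp : ⊤ ≤ Submodule.span F (Set.range e) := by
    rintro y -
    obtain ⟨y, rfl⟩ := Submodule.Quotient.mk_surjective _ y
    obtain ⟨a, ha⟩ := hs y y.2
    rw [Submodule.mem_span_range_iff_exists_fun]
    refine ⟨a, ?_⟩
    rw [hsum]
    refine Eq.symm ((Submodule.Quotient.eq _).2 ?_)
    show ((y - ∑ t, a t • (⟨z t, hz t⟩ : T) : T) : Y) ∈ B
    rw [Submodule.coe_sub, hval]
    exact ha
  let b := Module.Basis.mk hli hsp
  refine ⟨Module.Finite.of_basis b, ?_⟩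
  rw [Module.finrank_eq_card_basis b, Fintype.card_fin]

end linear

variable {s : QBar} {d : ℕ} {A : Type} [CommRing A] [IsDomain A] [IsLocalRing A]
  [TopologicalSpace A] [IsTopologicalRing A] [Algebra ℤ_[2] A]
  {F : Type} [Field F] [Algebra A F] [IsFractionRing A F]
  {n : ℕ} {ρ : GQ →* GL (Fin n) A} {c : GQ} {cj : GK s → GK s}

/-- the coboundaries over `ℚ(s)` -/
def cobK (F : Type) [Field F] [Algebra A F] [IsFractionRing A F] (s : QBar) (ρ : GQ →* GL (Fin n) A) :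
    Submodule F (GK s → Fin n → F) where
  carrier := {z | ∃ v : Fin n → F, ∀ σ, z σ = ac F ρ (rsc s σ) v - v}
  add_mem' := by
    rintro z z' ⟨v, h⟩ ⟨v', h'⟩
    refine ⟨v + v', fun σ => ?_⟩
    rw [Pi.add_apply, h, h', ac_add]
    abel
  zero_mem' := ⟨0, fun σ => by simp [ac]⟩
  smul_mem' := by
    rintro a z ⟨v, h⟩
    refine ⟨a • v, fun σ => ?_⟩
    rw [Pi.smul_apply, h, ac_smul, smul_sub]

lemma ac_inr (hρ : Admissible ρ) {p : ℕ} [Fact p.Prime] (j : Emb p) (hp : p ≠ 2) {σ : GQ}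
    (hσ : σ ∈ Inr j) (v : Fin n → F) : ac F ρ σ v = v := by
  unfold ac mat
  rw [hρ.unramified p j hp σ hσ, Units.val_one, Matrix.map_one _ (map_zero _) (map_one _),
    Matrix.one_mulVec]

lemma res_mem (D : Dt s d c cj) (hρ : Admissible ρ) {η : F} (hη : η * η = 1) {ι : Emb 2} {k : ℕ}
    {l : Fin k → Dec ι → Fin n → F} {Z : GQ → Fin n → F}
    (hZ : Z ∈ selmer A (mt F s ρ η) ι l) : res s Z ∈ wk D ρ ι l := by
  obtain ⟨h1, ⟨a, b, ha, hb, hab⟩, h3, e, v, h4⟩ := hZ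
  have hloc : ∀ δ : Dec ι, loc D ι (res s Z) δ = ∑ i, e i • l i δ + (mat F ρ δ *ᵥ v - v) := by
    intro δ
    unfold loc
    rw [res_apply, dn_rsc, h4, mt_mulVec, sg_pos η (dec_fix D.hs D.hd δ.2), one_smul]
    rfl
  refine ⟨⟨fun σ τ => ?_, ⟨a, fun σ => b (rsc s σ), ha, hb.comp rsc_cont, fun σ i => hab _ i⟩,
    fun p _ j hp σ hσ => ?_⟩, ⟨e, v, hloc⟩, ⟨η • e, η • v + η • Z c, fun δ => ?_⟩⟩
  · rw [res_apply, map_mul, h1, mt_mulVec, sg_pos η (rsc_fix σ), one_smul]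
    rfl
  · obtain ⟨w, hw⟩ := h3 p j hp
    rw [res_apply, hw _ (inr_of_II hσ), mt_mulVec, sg_pos η (rsc_fix σ), one_smul,
      ac_inr hρ j hp (inr_of_II hσ), sub_self]
  · have e1 : loc D ι (cz ρ c cj (res s Z)) δ = η • loc D ι (res s Z) δ +
        (ac F ρ (δ : GQ) (η • Z c) - η • Z c) := by
      have := D.cz_res hη h1 (dn D ι δ : GK s)
      rw [dn_rsc] at this
      exact this
    rw [e1, hloc]
    show η • (∑ i, e i • l i δ + (ac F ρ (δ : GQ) v - v)) + (ac F ρ (δ : GQ) (η • Z c) - η • Z c) =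
      ∑ i, (η • e) i • l i δ + (ac F ρ (δ : GQ) (η • v + η • Z c) - (η • v + η • Z c))
    rw [smul_add, smul_sub, Finset.smul_sum, ac_add, ac_smul, ac_smul]
    simp only [Pi.smul_apply, smul_eq_mul, mul_smul]
    abel

lemma ex_mem (D : Dt s d c cj) (hρ : Admissible ρ) (h2 : (2 : F) ≠ 0) {η : F}
    (hη : η = 1 ∨ η = -1) {ι : Emb 2} {k : ℕ}
    {l : Fin k → Dec ι → Fin n → F} {z : GK s → Fin n → F}
    (hz : z ∈ wk D ρ ι l) (hcz : cz ρ c cj z = η • z) :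
    ex D z ∈ selmer A (mt F s ρ η) ι l := by
  obtain ⟨h1, ⟨e, v, h4⟩, -⟩ := hz
  have hmul : ∀ σ τ, ex D z (σ * τ) = ex D z σ + mt F s ρ η σ *ᵥ ex D z τ :=
    fun σ τ => D.ex_mul (fun σ τ => h1.mul σ τ) hcz σ τ
  refine ⟨hmul, ?_, fun p _ j hp => ?_, ⟨e, v, fun δ => ?_⟩⟩
  · obtain ⟨a, b, ha, hb, hab⟩ := h1.cont
    refine ⟨a, ex D b, ha, D.ex_cont hb, fun σ i => ?_⟩
    by_cases h : σ s = s
    · rw [ex_pos D z h, ex_pos D b h, hab]
    · rw [ex_neg D z h, ex_neg D b h, hab]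
  · have hin : ∀ σ ∈ Inr j, σ s = s → ex D z σ = 0 := by
      intro σ hσ h
      rw [ex_pos D z h]
      exact h1.unr p j hp _ (II_of_inr (by rw [rsc_toGK]; exact hσ))
    by_cases H : ∃ τ ∈ Inr j, ¬ τ s = s
    · obtain ⟨τ, hτ, hτs⟩ := H
      have hout : ∀ σ ∈ Inr j, ¬ σ s = s → ex D z σ = -(η • ex D z τ) := by
        intro σ hσ h
        have e1 := hmul σ τ
        rw [hin _ (inr_mul hσ hτ) (D.mul_mul h hτs), mt_mulVec, sg_neg η h,
          ac_inr hρ j hp hσ] at e1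
        exact eq_neg_of_add_eq_zero_left e1.symm
      have hτ0 := hout τ hτ hτs
      rcases hη with rfl | rfl
      · refine ⟨0, fun σ hσ => ?_⟩
        have h5 : ex D z τ = 0 := by
          rw [one_smul] at hτ0
          have h6 : (2 : F) • ex D z τ = 0 := by
            rw [two_smul]
            nth_rewrite 1 [hτ0]
            exact neg_add_cancel _
          exact (smul_eq_zero.1 h6).resolve_left h2
        rw [Matrix.mulVec_zero, sub_zero]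
        by_cases h : σ s = s
        · exact hin σ hσ h
        · rw [hout σ hσ h, h5, smul_zero, neg_zero]
      · refine ⟨-((2 : F)⁻¹ • ex D z τ), fun σ hσ => ?_⟩
        rw [mt_mulVec, ac_inr hρ j hp hσ]
        by_cases h : σ s = s
        · rw [sg_pos _ h, one_smul, sub_self]
          exact hin σ hσ h
        · rw [hout σ hσ h, sg_neg _ h, neg_smul, one_smul, neg_neg, neg_smul, one_smul, neg_neg,
            sub_neg_eq_add, ← add_smul]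
          have h7 : (2 : F)⁻¹ + (2 : F)⁻¹ = 1 := by field_simp; norm_num
          rw [h7, one_smul]
    · push Not at H
      refine ⟨0, fun σ hσ => ?_⟩
      rw [Matrix.mulVec_zero, sub_zero]
      exact hin σ hσ (H σ hσ)
  · have h5 := dec_fix D.hs D.hd δ.2
    have h6 := h4 δ
    unfold loc at h6
    rw [ex_pos D z h5, mt_mulVec, sg_pos η h5, one_smul]
    exact h6

lemma cz_mem (D : Dt s d c cj) {ι : Emb 2} {k : ℕ} {l : Fin k → Dec ι → Fin n → F}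
    {z : GK s → Fin n → F} (hz : z ∈ wk D ρ ι l) : cz ρ c cj z ∈ wk D ρ ι l := by
  obtain ⟨h1, h2, h3⟩ := hz
  exact ⟨cz_GC D h1, h3, by rw [D.cz_cz]; exact h2⟩

lemma cz_smul (a : F) (z : GK s → Fin n → F) : cz ρ c cj (a • z) = a • cz ρ c cj z := by
  funext σ
  exact ac_smul _ _ _

lemma cz_add (z z' : GK s → Fin n → F) : cz ρ c cj (z + z') = cz ρ c cj z + cz ρ c cj z' := by
  funext σ
  exact ac_add _ _ _

lemma cz_sub (z z' : GK s → Fin n → F) : cz ρ c cj (z - z') = cz ρ c cj z - cz ρ c cj z' := by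
  funext σ
  exact ac_sub _ _ _

lemma res_ex (D : Dt s d c cj) (z : GK s → Fin n → F) : res s (ex D z) = z := by
  funext σ
  rw [res_apply, ex_rsc]

lemma res_cob (η : F) {Z : GQ → Fin n → F} (hZ : Z ∈ coboundaries (mt F s ρ η)) :
    res s Z ∈ cobK F s ρ := by
  obtain ⟨v, h⟩ := hZ
  refine ⟨v, fun σ => ?_⟩
  rw [res_apply, h, mt_mulVec, sg_pos η (rsc_fix σ), one_smul]

/-- **Descent of Selmer groups.** -/
theorem descent (D : Dt s d c cj) (hρ : Admissible ρ) (h2 : (2 : F) ≠ 0) (ι : Emb 2) {k : ℕ}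
    (l : Fin k → Dec ι → Fin n → F) :
    Nonempty ((SelmerGroup A (mat F ρ) ι l × SelmerGroup A (twist F s ρ) ι l) ≃ₗ[F]
      (wk D ρ ι l ⧸ (cobK F s ρ).submoduleOf (wk D ρ ι l))) := by
  rw [← mt_one_eq (s := s), ← mt_neg_one_eq]
  have h1 : (1 : F) * 1 = 1 := by norm_num
  have hm : (-1 : F) * -1 = 1 := by norm_num
  have h22 : (2 : F)⁻¹ + (2 : F)⁻¹ = 1 := by field_simp; norm_num
  refine split_equiv _ _ _ _ _ _ (res s) (res s) (fun Z hZ => res_mem D hρ h1 hZ)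
    (fun Z hZ => res_mem D hρ hm hZ) (fun Z hZ => res_cob 1 hZ) (fun Z hZ => res_cob (-1) hZ)
    (fun z hz => ?_) (fun Z₁ hZ₁ Z₂ hZ₂ h => ?_)
  · have hcz := cz_mem D hz
    have hcc : cz ρ c cj (cz ρ c cj z) = z := D.cz_cz z
    set z₁ := (2 : F)⁻¹ • (z + cz ρ c cj z) with hz₁
    set z₂ := (2 : F)⁻¹ • (z - cz ρ c cj z) with hz₂
    have hm₁ : z₁ ∈ wk D ρ ι l := Submodule.smul_mem _ _ (Submodule.add_mem _ hz hcz)
    have hm₂ : z₂ ∈ wk D ρ ι l := Submodule.smul_mem _ _ (Submodule.sub_mem _ hz hcz)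
    have hc₁ : cz ρ c cj z₁ = (1 : F) • z₁ := by
      rw [hz₁, cz_smul, cz_add, hcc, one_smul, add_comm]
    have hc₂ : cz ρ c cj z₂ = (-1 : F) • z₂ := by
      rw [hz₂, cz_smul, cz_sub, hcc, smul_smul, neg_one_mul, neg_smul, ← smul_neg, neg_sub]
    refine ⟨ex D z₁, ex_mem D hρ h2 (Or.inl rfl) hm₁ hc₁, ex D z₂,
      ex_mem D hρ h2 (Or.inr rfl) hm₂ hc₂, ?_⟩
    rw [res_ex, res_ex, hz₁, hz₂]
    have e1 : z - ((2 : F)⁻¹ • (z + cz ρ c cj z) + (2 : F)⁻¹ • (z - cz ρ c cj z)) = 0 := by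
      rw [← smul_add]
      have e2 : z + cz ρ c cj z + (z - cz ρ c cj z) = (2 : F) • z := by
        rw [two_smul]; abel
      rw [e2, smul_smul, inv_mul_cancel₀ h2, one_smul, sub_self]
    rw [e1]
    exact Submodule.zero_mem _
  · obtain ⟨v, hv⟩ := h
    have hv' : ∀ σ, res s Z₁ σ + res s Z₂ σ = ac F ρ (rsc s σ) v - v := hv
    have e1 := fun σ => D.cz_res (ρ := ρ) h1 hZ₁.1 σ
    have e2 := fun σ => D.cz_res (ρ := ρ) hm hZ₂.1 σ
    have e3 : ∀ σ, cz ρ c cj (res s Z₁) σ + cz ρ c cj (res s Z₂) σ =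
        ac F ρ (rsc s σ) (ac F ρ c v) - ac F ρ c v := by
      intro σ
      unfold cz
      rw [← ac_add, hv', ac_sub, ← ac_mul, ← ac_mul, D.cj_eq]
      have e4 : c * (c * rsc s σ * c) = rsc s σ * c := by
        rw [← mul_assoc, ← mul_assoc, D.cc, one_mul]
      rw [e4]
    have e5 : ∀ σ, res s Z₁ σ = ac F ρ (rsc s σ)
        ((2 : F)⁻¹ • (v + ac F ρ c v - Z₁ c + Z₂ c)) -
        (2 : F)⁻¹ • (v + ac F ρ c v - Z₁ c + Z₂ c) := by
      intro σ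
      have h3 := e3 σ
      rw [e1, e2] at h3
      simp only [one_smul, neg_smul, ac_neg] at h3
      have h4 : (2 : F) • res s Z₁ σ = ac F ρ (rsc s σ) (v + ac F ρ c v - Z₁ c + Z₂ c) -
          (v + ac F ρ c v - Z₁ c + Z₂ c) := by
        rw [two_smul, ac_add, ac_sub, ac_add]
        have h5 : res s Z₁ σ + res s Z₁ σ = (res s Z₁ σ + res s Z₂ σ) +
            (res s Z₁ σ + (ac F ρ (rsc s σ) (Z₁ c) - Z₁ c) +
              (-res s Z₂ σ + (-ac F ρ (rsc s σ) (Z₂ c) - -Z₂ c))) -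
            (ac F ρ (rsc s σ) (Z₁ c) - Z₁ c) + (ac F ρ (rsc s σ) (Z₂ c) - Z₂ c) := by abel
        rw [h5, hv', h3]
        abel
      rw [ac_smul, ← smul_sub, ← h4, smul_smul, inv_mul_cancel₀ h2, one_smul]
    have e6 : ∀ σ, res s Z₂ σ = ac F ρ (rsc s σ)
        (v - (2 : F)⁻¹ • (v + ac F ρ c v - Z₁ c + Z₂ c)) -
        (v - (2 : F)⁻¹ • (v + ac F ρ c v - Z₁ c + Z₂ c)) := by
      intro σ
      have h3 : res s Z₂ σ = (ac F ρ (rsc s σ) v - v) - res s Z₁ σ := by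
        rw [← hv']; abel
      rw [h3, e5, ac_sub]
      abel
    exact ⟨D.cob h1 h2 hZ₁.1 e5, D.cob hm h2 hZ₂.1 e6⟩

end Pool.Agent.H502.PQ
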