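import Pool.Agent.H502.PQ.Defs
import Pool.Graph.R_pool_sql_team_seeded_35f281b4.H76.PS.I8

/-!
# The absolute Galois groups of `ℚ` and of `ℚ(s)`
-/

set_option autoImplicit false
set_option linter.unusedSectionVars false

namespace Pool.Agent.H502.PQ

open Pool.Agent.Y715.Gi (QB KK GK)
open Pool.Agent.Z384
open Pool.Agent.H76.PS
open Polynomial Topology

/-- An algebraic closure of `ℚ`. -/
abbrev QBar : Type := AlgebraicClosure ℚ

/-- The absolute Galois group of `ℚ`, with the Krull topology. -/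
abbrev GQ : Type := Gal(AlgebraicClosure ℚ/ℚ)

/-- Embeddings of `ℚ̄` into the algebraic closure of `ℚ_p`. -/
abbrev Emb (p : ℕ) [Fact p.Prime] : Type := AlgebraicClosure ℚ →ₐ[ℚ] PadicAlgCl p

lemma padic_sq2 {n : ℤ} (hn : n % 8 = 1) : IsSquare (n : ℚ_[2]) := by
  have e1 : ∀ w : ℤ_[2], (aeval w) (X ^ 2 - C (n : ℤ_[2]) : ℤ_[2][X]) = w ^ 2 - n := by
    intro w; simp
  have e2 : ∀ w : ℤ_[2], (aeval w) (derivative (X ^ 2 - C (n : ℤ_[2]) : ℤ_[2][X])) = 2 * w := by
    intro w; simp; norm_num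
  obtain ⟨z, hz, -⟩ := hensels_lemma (p := 2) (R := ℤ_[2]) (F := X ^ 2 - C (n : ℤ_[2]))
    (a := 1) (by
      rw [e1, e2]
      have h4 : ‖(2 : ℤ_[2])‖ = 2⁻¹ := by
        have := PadicInt.norm_p (p := 2)
        exact_mod_cast this
      have h3 : ‖((1 - n : ℤ) : ℤ_[2])‖ ≤ ((2 : ℕ) : ℝ) ^ (-(3 : ℕ) : ℤ) := by
        rw [PadicInt.norm_int_le_pow_iff_dvd]
        push_cast
        omega
      push_cast at h3
      rw [one_pow, mul_one, h4]
      refine lt_of_le_of_lt h3 ?_
      norm_num)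
  rw [e1] at hz
  have h6 := congrArg (fun w : ℤ_[2] => (w : ℚ_[2])) (sub_eq_zero.1 hz)
  push_cast at h6
  exact ⟨z, by rw [← h6]; ring⟩

lemma exists_isConj : ∃ c : GQ, IsConj c := by
  let j : QBar →ₐ[ℚ] ℂ := IsAlgClosed.lift
  letI : Algebra QBar ℂ := j.toRingHom.toAlgebra
  have : IsScalarTower ℚ QBar ℂ := IsScalarTower.of_algebraMap_eq fun x => (j.commutes x).symm
  have : Normal ℚ QBar := inferInstance
  let φ : ℂ ≃ₐ[ℚ] ℂ := AlgEquiv.ofRingEquiv (f := (starRingAut : ℂ ≃+* ℂ)) (fun r => by simp)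
  refine ⟨φ.restrictNormal QBar, j.toRingHom, fun x => ?_⟩
  exact φ.restrictNormal_commutes QBar x

variable {s : QBar} {d : ℕ}

/-- restriction of scalars -/
noncomputable def rsc (s : QBar) : GK s →* GQ := AlgEquiv.restrictScalarsHom ℚ

lemma rsc_apply (σ : GK s) (x : QBar) : rsc s σ x = σ x := rfl

lemma rsc_inj : Function.Injective (rsc s) := by
  intro σ τ h
  ext x
  have := congrArg (fun r : GQ => r x) h
  exact this

lemma rsc_fix (σ : GK s) : rsc s σ s = s := by
  rw [rsc_apply]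
  exact σ.commutes (⟨s, IntermediateField.mem_adjoin_simple_self ℚ s⟩ : KK s)

/-- an element of `G_ℚ` which fixes `s`, as an element of the group of `ℚ(s)` -/
noncomputable def toGK (σ : GQ) (h : σ s = s) : GK s :=
  AlgEquiv.ofRingEquiv (f := σ.toRingEquiv) fun r => by
    have hK : KK s ≤ IntermediateField.fixedField (Subgroup.zpowers σ) := by
      rw [IntermediateField.adjoin_le_iff, Set.singleton_subset_iff]
      rw [SetLike.mem_coe, IntermediateField.mem_fixedField_iff]
      intro τ hτ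
      obtain ⟨n, rfl⟩ := Subgroup.mem_zpowers_iff.1 hτ
      have h0 : σ ∈ MulAction.stabilizer GQ s := h
      exact (MulAction.stabilizer GQ s).zpow_mem h0 n
    have h1 := hK r.2
    rw [IntermediateField.mem_fixedField_iff] at h1
    exact h1 σ (Subgroup.mem_zpowers σ)

lemma toGK_apply (σ : GQ) (h : σ s = s) (x : QBar) : toGK σ h x = σ x := rfl

lemma rsc_toGK (σ : GQ) (h : σ s = s) : rsc s (toGK σ h) = σ := by
  ext x; rfl

lemma toGK_rsc (σ : GK s) (h : rsc s σ s = s) : toGK (rsc s σ) h = σ := by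
  ext x; rfl

lemma isOpen_fixQ (x : QBar) : IsOpen {σ : GQ | σ x = x} := by
  have h1 : {σ : GQ | σ x = x} =
      ((IntermediateField.adjoin ℚ {x}).fixingSubgroup : Set GQ) := by
    ext σ
    rw [Set.mem_setOf_eq, SetLike.mem_coe, IntermediateField.mem_fixingSubgroup_iff]
    constructor
    · intro h y hy
      have hK : IntermediateField.adjoin ℚ {x} ≤
          IntermediateField.fixedField (Subgroup.zpowers σ) := by
        rw [IntermediateField.adjoin_le_iff, Set.singleton_subset_iff]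
        rw [SetLike.mem_coe, IntermediateField.mem_fixedField_iff]
        intro τ hτ
        obtain ⟨n, rfl⟩ := Subgroup.mem_zpowers_iff.1 hτ
        have h0 : σ ∈ MulAction.stabilizer GQ x := h
        exact (MulAction.stabilizer GQ x).zpow_mem h0 n
      have h1 := hK hy
      rw [IntermediateField.mem_fixedField_iff] at h1
      exact h1 σ (Subgroup.mem_zpowers σ)
    · intro h
      exact h x (IntermediateField.mem_adjoin_simple_self ℚ x)
  rw [h1]
  have : FiniteDimensional ℚ (IntermediateField.adjoin ℚ {x}) :=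
    IntermediateField.adjoin.finiteDimensional (Algebra.IsIntegral.isIntegral x)
  exact IntermediateField.fixingSubgroup_isOpen _

lemma rsc_cont : Continuous (rsc s) := by
  refine continuous_of_continuousAt_one (rsc s) ?_
  rw [ContinuousAt, map_one]
  intro U hU
  obtain ⟨E, hE, hEU⟩ := (krullTopology_mem_nhds_one_iff ℚ QBar U).1 hU
  rw [Filter.mem_map]
  let b := Module.finBasis ℚ E
  have ho : IsOpen (⋂ i, {σ : GK s | σ (b i : QBar) = (b i : QBar)}) :=
    isOpen_iInter_of_finite fun i => isOpen_fix _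
  refine Filter.mem_of_superset (ho.mem_nhds (by simp)) ?_
  intro σ hσ
  rw [Set.mem_iInter] at hσ
  apply hEU
  rw [SetLike.mem_coe, IntermediateField.mem_fixingSubgroup_iff]
  intro x hx
  obtain ⟨f, hf⟩ : ∃ f : Fin (Module.finrank ℚ E) → ℚ, ∑ i, ((f i : ℚ) : QBar) * (b i : QBar) = x := by
    have h1 := b.sum_repr ⟨x, hx⟩
    have h3 := congrArg (Subtype.val : E → QBar) h1
    refine ⟨fun i => b.repr ⟨x, hx⟩ i, h3.symm.trans ?_ |>.symm⟩
    simp [Rat.smul_def]
  show (rsc s σ) x = x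
  rw [rsc_apply, ← hf, map_sum]
  refine Finset.sum_congr rfl fun i _ => ?_
  rw [map_mul, map_ratCast]
  congr 1
  exact hσ i

lemma rsc_inducing : IsInducing (rsc s) := by
  rw [IsTopologicalGroup.isInducing_iff_nhds_one]
  apply le_antisymm
  · rw [← Filter.map_le_iff_le_comap, ← map_one (rsc s)]
    exact (rsc_cont (s := s)).continuousAt
  · intro U hU
    obtain ⟨E, hE, hEU⟩ := (krullTopology_mem_nhds_one_iff (KK s) QBar U).1 hU
    rw [Filter.mem_comap]
    let b := Module.finBasis (KK s) E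
    have ho : IsOpen (⋂ i, {σ : GQ | σ (b i : QBar) = (b i : QBar)}) :=
      isOpen_iInter_of_finite fun i => isOpen_fixQ _
    refine ⟨_, ho.mem_nhds (by simp), ?_⟩
    intro σ hσ
    rw [Set.mem_preimage, Set.mem_iInter] at hσ
    apply hEU
    rw [SetLike.mem_coe, IntermediateField.mem_fixingSubgroup_iff]
    intro x hx
    have h2 := b.sum_repr ⟨x, hx⟩
    have h3 : x = ∑ i, (b.repr ⟨x, hx⟩ i : KK s) • (b i : QBar) := by
      have := congrArg (E.val) h2
      simp only [map_sum] at this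
      exact this.symm
    show σ x = x
    rw [h3, map_sum]
    refine Finset.sum_congr rfl fun i _ => ?_
    rw [Algebra.smul_def, map_mul, AlgEquiv.commutes]
    congr 1
    exact hσ i

lemma sq_fix (hs : s ^ 2 = -(d : QBar)) (σ : GQ) : σ s = s ∨ σ s = -s := by
  have h1 : (σ s) ^ 2 = s ^ 2 := by rw [← map_pow, hs, map_neg, map_natCast]
  exact sq_eq_sq_iff_eq_or_eq_neg.1 h1

lemma conj_s (hs : s ^ 2 = -(d : QBar)) (hd : d ≠ 0) {c : GQ} (hc : IsConj c) : c s = -s := by
  rcases sq_fix hs c with h | h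
  · exfalso
    obtain ⟨j, hj⟩ := hc
    have h1 := hj s
    rw [h] at h1
    obtain ⟨r, hr⟩ := Complex.conj_eq_iff_real.1 h1.symm
    have h2 : (j s) ^ 2 = -(d : ℂ) := by rw [← map_pow, hs, map_neg, map_natCast]
    rw [hr] at h2
    have h3 : (r : ℝ) ^ 2 = -(d : ℝ) := by exact_mod_cast h2
    have h4 : (0 : ℝ) < d := by exact_mod_cast Nat.pos_of_ne_zero hd
    nlinarith [sq_nonneg r]
  · exact h

lemma s_ne (hs : s ^ 2 = -(d : QBar)) (hd : d ≠ 0) : (-s : QBar) ≠ s := by
  intro h
  have h1 : s = 0 := by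
    have h2 : (2 : QBar) * s = 0 := by linear_combination -h
    rcases mul_eq_zero.1 h2 with h3 | h3
    · exact absurd h3 two_ne_zero
    · exact h3
  rw [h1] at hs
  have h4 : (d : QBar) = 0 := by linear_combination hs
  exact hd (by exact_mod_cast h4)

lemma dec_fix (hs : s ^ 2 = -(d : QBar)) (hd : Fld d) {ι : Emb 2} {σ : GQ} (h : σ ∈ Dec ι) :
    σ s = s := by
  obtain ⟨τ, hτ⟩ := h
  have h8 : (-(d : ℤ)) % 8 = 1 := by
    have := hd.mod
    omega
  obtain ⟨y, hy⟩ := padic_sq2 h8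
  have h1 : (ι s) ^ 2 = (algebraMap ℚ_[2] (PadicAlgCl 2) y) ^ 2 := by
    rw [← map_pow, hs, ← map_pow, sq y, ← hy]
    simp
  have h2 : τ (ι s) = ι s := by
    rcases sq_eq_sq_iff_eq_or_eq_neg.1 h1 with h | h
    · rw [h, τ.commutes]
    · rw [h, map_neg, τ.commutes]
  have h3 := hτ s
  rw [h2] at h3
  exact (ι.toRingHom.injective h3).symm

end Pool.Agent.H502.PQ
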