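import Pool.Agent.H502.PQ.Desc

/-!
# The Selmer group over `ℚ(s)` of the parity theorem
-/

set_option autoImplicit false
set_option linter.unusedSectionVars false

namespace Pool.Agent.H502.PQ

open Pool.Agent.Y715.Gi (QB KK GK)
open Pool.Agent.Y715.Nr
open Pool.Agent.Z384
open Pool.Agent.H76.PS
open Topology Matrix IsLocalRing

lemma cyc_conj {c : GQ} (hc : IsConj c) : cyc c = -1 := by
  have hcc : c * c = 1 := by
    ext x
    exact hc.invol x
  have h1 : cyc c * cyc c = 1 := by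
    unfold cyc
    rw [← Units.val_mul, ← map_mul]
    have h2 : c.toRingEquiv * c.toRingEquiv = 1 := by
      ext x
      exact hc.invol x
    rw [h2, map_one, Units.val_one]
  rcases mul_self_eq_one_iff.1 h1 with h | h
  · exfalso
    obtain ⟨i, hi⟩ := IsAlgClosed.exists_pow_nat_eq (-1 : QBar) (n := 2) (by norm_num)
    have h4 : i ^ 2 ^ 2 = 1 := by
      rw [show (2 : ℕ) ^ 2 = 2 * 2 from rfl, pow_mul, hi]; norm_num
    have h5 := cyclotomicCharacter.spec 2 (n := 2) c.toRingEquiv i h4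
    have h6 : ((cyclotomicCharacter QBar 2 c.toRingEquiv : ℤ_[2]ˣ) : ℤ_[2]) = 1 := h
    rw [h6, map_one] at h5
    have h7 : (1 : ZMod (2 ^ 2)).val = 1 := by decide
    rw [h7, pow_one] at h5
    have h8 : c i = i := h5
    obtain ⟨j, hj⟩ := hc
    have h9 := hj i
    rw [h8] at h9
    obtain ⟨r, hr⟩ := Complex.conj_eq_iff_real.1 h9.symm
    have h10 : (j i) ^ 2 = -1 := by rw [← map_pow, hi, map_neg, map_one]
    rw [hr] at h10
    have h11 : (r : ℝ) ^ 2 = -1 := by exact_mod_cast h10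
    nlinarith [sq_nonneg r]
  · exact h

variable {s : QBar} {d : ℕ} {A : Type} [CommRing A] [IsDomain A] [IsLocalRing A]
  [TopologicalSpace A] [IsTopologicalRing A] [Algebra ℤ_[2] A]
  {F : Type} [Field F] [Algebra A F] [IsFractionRing A F]
  {n : ℕ} {ρ : GQ →* GL (Fin n) A}

variable (s ρ) in
/-- the restriction of the representation -/
noncomputable abbrev rK : GK s →* GL (Fin n) A := ρ.comp (rsc s)

lemma act_rK (σ : GK s) (v : Fin n → F) : act F (rK s ρ) σ v = ac F ρ (rsc s σ) v := rfl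

lemma inr_of_II {p : ℕ} [Fact p.Prime] {ι : Emb p} {σ : GK s} (h : σ ∈ (II ι : Set (GK s))) :
    rsc s σ ∈ Inr ι := by
  obtain ⟨τ, h1, h2⟩ := h
  exact ⟨τ, h1, h2⟩

lemma II_of_inr {p : ℕ} [Fact p.Prime] {ι : Emb p} {σ : GK s} (h : rsc s σ ∈ Inr ι) :
    σ ∈ (II ι : Set (GK s)) := by
  obtain ⟨τ, h1, h2⟩ := h
  exact ⟨τ, h1, h2⟩

lemma inr_mul {p : ℕ} [Fact p.Prime] {ι : Emb p} {σ τ : GQ} (hσ : σ ∈ Inr ι) (hτ : τ ∈ Inr ι) :
    σ * τ ∈ Inr ι := by
  obtain ⟨a, h1, h2⟩ := hσ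
  obtain ⟨b, h3, h4⟩ := hτ
  refine ⟨a * b, fun x => ?_, fun z hz => ?_⟩
  · rw [AlgEquiv.mul_apply, h3, h1]
    rfl
  · have h5 : (a * b) z - z = (a (b z) - b z) + (b z - z) := by
      rw [AlgEquiv.mul_apply]; ring
    rw [h5]
    refine lt_of_le_of_lt (IsUltrametricDist.norm_add_le_max _ _) (max_lt ?_ (h4 z hz))
    exact h2 _ (by rw [nrm]; exact hz)

lemma rp_rK (hρ : Admissible ρ) : Rp (rK s ρ) where
  cont i j := (hρ.cont i j).comp rsc_cont
  unipotent σ := hρ.unipotent _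
  unramified p _ ι hp σ hσ := hρ.unramified p ι hp _ (inr_of_II hσ)

lemma isCyc : IsCyc (s := s) (fun σ => cyc (rsc s σ)) := by
  intro σ m ζ hζ
  exact cyclotomicCharacter.spec 2 (n := m) (rsc s σ).toRingEquiv ζ hζ

lemma dual_mat {Ω : Matrix (Fin n) (Fin n) F} (hΩ : SelfDual F ρ Ω) (σ : GQ) :
    (mat F ρ σ)ᵀ * Ω * mat F ρ σ = cycF (A := A) F σ • Ω := by
  ext i j
  have h := hΩ.inv σ (Pi.single i 1) (Pi.single j 1)
  rw [dot_trF, Matrix.mulVec_mulVec, Matrix.mulVec_mulVec, single_one_dotProduct,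
    single_one_dotProduct, Matrix.mulVec_single_one, Matrix.mulVec_single_one] at h
  exact h

lemma cycF_conj {c : GQ} (hc : IsConj c) : cycF (A := A) F c = -1 := by
  unfold cycF
  rw [cyc_conj hc, map_neg, map_one, map_neg, map_one]

/-- the pairing of the conjugate -/
lemma J_symm {Ω : Matrix (Fin n) (Fin n) F} (hΩ : SelfDual F ρ Ω) {c : GQ} (hc : IsConj c) :
    (Ω * mat F ρ c).IsSymm := by
  have hcc : c * c = 1 := by
    ext x
    exact hc.invol x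
  have h1 := dual_mat hΩ c
  rw [cycF_conj hc, neg_smul, one_smul] at h1
  have h2 : (mat F ρ c)ᵀ * Ω = -(Ω * mat F ρ c) := by
    have h3 : (mat F ρ c)ᵀ * Ω * mat F ρ c * mat F ρ c = (-Ω) * mat F ρ c := by rw [h1]
    rw [Matrix.mul_assoc, ← mat_mul, hcc, mat_one, Matrix.mul_one] at h3
    rw [h3, Matrix.neg_mul]
  unfold Matrix.IsSymm
  rw [Matrix.transpose_mul, hΩ.alt, Matrix.mul_neg, h2, neg_neg]

variable {c : GQ} {cj : GK s → GK s}

lemma J_inv {Ω : Matrix (Fin n) (Fin n) F} (hΩ : SelfDual F ρ Ω) (D : Dt s d c cj) (σ : GK s) :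
    ((rK s ρ σ : Matrix (Fin n) (Fin n) A).map (algebraMap A F))ᵀ * (Ω * mat F ρ c) *
      ((rK s ρ (cj σ) : Matrix (Fin n) (Fin n) A).map (algebraMap A F)) =
      chF A F (fun σ => cyc (rsc s σ)) σ • (Ω * mat F ρ c) := by
  show (mat F ρ (rsc s σ))ᵀ * (Ω * mat F ρ c) * mat F ρ (rsc s (cj σ)) =
    cycF (A := A) F (rsc s σ) • (Ω * mat F ρ c)
  have e1 : c * (c * rsc s σ * c) = rsc s σ * c := by
    rw [← mul_assoc, ← mul_assoc, D.cc, one_mul]
  rw [D.cj_eq, Matrix.mul_assoc, Matrix.mul_assoc, ← mat_mul, e1, mat_mul, ← Matrix.mul_assoc,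
    ← Matrix.mul_assoc, dual_mat hΩ, Matrix.smul_mul]

/-! ### The decomposition groups -/

/-- the decomposition group over `ℚ(s)` in the one over `ℚ` -/
noncomputable def up (s : QBar) (ι : Emb 2) (δ : DDs (s := s) ι) : Dec ι :=
  ⟨rsc s δ, by
    obtain ⟨τ, h⟩ := δ.2
    exact ⟨τ, h⟩⟩

/-- the inverse -/
noncomputable def dn (D : Dt s d c cj) (ι : Emb 2) (δ : Dec ι) : DDs (s := s) ι :=
  ⟨toGK (δ : GQ) (dec_fix D.hs D.hd δ.2), by
    obtain ⟨τ, h⟩ := δ.2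
    exact ⟨τ, h⟩⟩

lemma up_dn (D : Dt s d c cj) (ι : Emb 2) (δ : Dec ι) : up s ι (dn D ι δ) = δ := by
  apply Subtype.ext
  exact rsc_toGK _ (dec_fix D.hs D.hd δ.2)

lemma dn_up (D : Dt s d c cj) (ι : Emb 2) (δ : DDs (s := s) ι) : dn D ι (up s ι δ) = δ := by
  apply Subtype.ext
  exact toGK_rsc _ (rsc_fix _)

lemma up_mul (ι : Emb 2) (δ δ' : DDs (s := s) ι) : up s ι (δ * δ') = up s ι δ * up s ι δ' := rfl

lemma dn_mul (D : Dt s d c cj) (ι : Emb 2) (δ δ' : Dec ι) :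
    dn D ι (δ * δ') = dn D ι δ * dn D ι δ' := rfl

lemma up_cont (ι : Emb 2) : Continuous (up s ι) :=
  (rsc_cont.comp continuous_subtype_val).subtype_mk _

lemma dn_cont (D : Dt s d c cj) (ι : Emb 2) : Continuous (dn D ι) := by
  refine Continuous.subtype_mk ?_ _
  rw [rsc_inducing.continuous_iff]
  exact continuous_subtype_val

lemma dn_rsc (D : Dt s d c cj) (ι : Emb 2) (δ : Dec ι) : rsc s (dn D ι δ : GK s) = δ :=
  rsc_toGK _ (dec_fix D.hs D.hd δ.2)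

/-- the localization of a function -/
noncomputable def loc (D : Dt s d c cj) (ι : Emb 2) (z : GK s → Fin n → F) : Dec ι → Fin n → F :=
  fun δ => z (dn D ι δ)

/-! ### The Selmer group -/

lemma cz_GC (D : Dt s d c cj) {z : GK s → Fin n → F} (hz : GC (rK s ρ) z) :
    GC (rK s ρ) (cz ρ c cj z) where
  mul σ τ := by
    have e1 : c * (c * rsc s σ * c) = rsc s σ * c := by
      rw [← mul_assoc, ← mul_assoc, D.cc, one_mul]
    unfold cz
    rw [cj_mul D.hc D.hcj, hz.mul, ac_add, act_rK, act_rK, ← ac_mul, ← ac_mul, D.cj_eq, e1]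
  cont := by
    obtain ⟨a, b, ha, hb, hab⟩ := hz.cont
    refine ⟨a, fun σ => (ρ c : Matrix (Fin n) (Fin n) A) *ᵥ b (cj σ), ha, ?_, fun σ i => ?_⟩
    · exact Continuous.matrix_mulVec continuous_const (hb.comp (cj_cont D.hc D.hcj))
    · unfold cz ac mat
      simp only [Matrix.mulVec, dotProduct, Matrix.map_apply, map_sum, map_mul, Finset.mul_sum]
      refine Finset.sum_congr rfl fun j _ => ?_
      rw [← hab]
      ring
  unr p _ ι hp σ hσ := by
    unfold cz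
    rw [hz.unr p _ hp _ (II_cj D.hc D.hcj hσ)]
    unfold ac
    rw [Matrix.mulVec_zero]

lemma span_iff (D : Dt s d c cj) (ι : Emb 2) {k : ℕ} (l : Fin k → Dec ι → Fin n → F)
    (z : GK s → Fin n → F) :
    (∃ (a : Fin k → F) (v : Fin n → F), ∀ δ : DDs (s := s) ι,
      z δ = ∑ i, a i • l i (up s ι δ) + (act F (rK s ρ) (δ : GK s) v - v)) ↔
    InSpan F ρ ι l (loc D ι z) := by
  constructor
  · rintro ⟨a, v, h⟩
    refine ⟨a, v, fun δ => ?_⟩
    have h1 := h (dn D ι δ)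
    rw [up_dn, act_rK, dn_rsc] at h1
    exact h1
  · rintro ⟨a, v, h⟩
    refine ⟨a, v, fun δ => ?_⟩
    have h1 := h (up s ι δ)
    unfold loc at h1
    rw [dn_up] at h1
    exact h1

lemma orth_iff (D : Dt s d c cj) (ι : Emb 2) {Ω : Matrix (Fin n) (Fin n) F}
    (l : Dec ι → Fin n → F) (z : GK s → Fin n → F) :
    Orth (Ω * mat F ρ c) (rK s ρ) (fun σ => cyc (rsc s σ)) cj ι (fun δ => l (up s ι δ)) z ↔
    Orthogonal F ρ Ω ι l (loc D ι (cz ρ c cj z)) := by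
  have key : ∀ δ δ' : DDs (s := s) ι,
      l (up s ι δ) ⬝ᵥ ((Ω * mat F ρ c) *ᵥ act F (rK s ρ) (cj δ) (z (cj δ'))) =
      l (up s ι δ) ⬝ᵥ (Ω *ᵥ (mat F ρ (up s ι δ : GQ) *ᵥ cz ρ c cj z δ')) := by
    intro δ δ'
    have e1 : c * (c * rsc s (δ : GK s) * c) = rsc s (δ : GK s) * c := by
      rw [← mul_assoc, ← mul_assoc, D.cc, one_mul]
    rw [act_rK, ← Matrix.mulVec_mulVec]
    congr 2
    show ac F ρ c (ac F ρ (rsc s (cj δ)) (z (cj δ'))) =
      ac F ρ (rsc s (δ : GK s)) (ac F ρ c (z (cj δ')))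
    rw [← ac_mul, ← ac_mul, D.cj_eq, e1]
  constructor
  · rintro ⟨f, ⟨a, b, ha, hb, hab⟩, h⟩
    refine ⟨fun δ => f (dn D ι δ), ⟨a, fun δ _ => b (dn D ι δ), ha,
      continuous_pi fun _ => hb.comp (dn_cont D ι), fun g _ => hab _⟩, fun δ δ' => ?_⟩
    have h1 := h (dn D ι δ) (dn D ι δ')
    rw [key, up_dn, ← dn_mul] at h1
    rw [show cycF (A := A) F (δ : GQ) = chF A F (fun σ => cyc (rsc s σ)) (dn D ι δ : GK s) by
      show algebraMap A F (algebraMap ℤ_[2] A (cyc (δ : GQ))) =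
        algebraMap A F (algebraMap ℤ_[2] A (cyc (rsc s (dn D ι δ : GK s))))
      rw [dn_rsc]]
    exact h1
  · rintro ⟨f, ⟨a, b, ha, hb, hab⟩, h⟩
    refine ⟨fun δ => f (up s ι δ), ⟨a, fun δ => b (up s ι δ) 0, ha,
      (continuous_apply 0).comp (hb.comp (up_cont ι)), fun g => hab _ 0⟩, fun δ δ' => ?_⟩
    rw [key]
    have h1 := h (up s ι δ) (up s ι δ')
    unfold loc at h1
    rw [dn_up] at h1
    exact h1

lemma loc_coc (D : Dt s d c cj) (ι : Emb 2) {z : GK s → Fin n → F} (hz : GC (rK s ρ) z) :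
    LocalCocycle F ρ ι (loc D ι z) where
  mul δ δ' := by
    unfold loc
    rw [dn_mul]
    have h1 := hz.mul (dn D ι δ : GK s) (dn D ι δ' : GK s)
    rw [act_rK, dn_rsc] at h1
    exact h1
  cont := by
    obtain ⟨a, b, ha, hb, hab⟩ := hz.cont
    exact ⟨a, fun δ => b (dn D ι δ), ha, hb.comp (continuous_subtype_val.comp (dn_cont D ι)),
      fun δ i => hab _ i⟩

/-- the Selmer cocycles over `ℚ(s)` -/
def wk (D : Dt s d c cj) (ρ : GQ →* GL (Fin n) A) (ι : Emb 2) {k : ℕ}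
    (l : Fin k → Dec ι → Fin n → F) : Submodule F (GK s → Fin n → F) where
  carrier := {z | GC (rK s ρ) z ∧ InSpan F ρ ι l (loc D ι z) ∧
    InSpan F ρ ι l (loc D ι (cz ρ c cj z))}
  add_mem' := by
    rintro z z' ⟨h1, ⟨a, v, h2⟩, ⟨b, w, h3⟩⟩ ⟨h1', ⟨a', v', h2'⟩, ⟨b', w', h3'⟩⟩
    refine ⟨⟨fun σ τ => ?_, h1.cont.add h1'.cont, fun p _ ι hp σ hσ => ?_⟩,
      ⟨a + a', v + v', fun δ => ?_⟩, ⟨b + b', w + w', fun δ => ?_⟩⟩
    · rw [Pi.add_apply, Pi.add_apply, Pi.add_apply, h1.mul, h1'.mul, map_add]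
      abel
    · rw [Pi.add_apply, h1.unr p ι hp σ hσ, h1'.unr p ι hp σ hσ, add_zero]
    · have e1 : loc D ι (z + z') δ = loc D ι z δ + loc D ι z' δ := rfl
      rw [e1, h2, h2', Matrix.mulVec_add]
      simp only [Pi.add_apply, add_smul, Finset.sum_add_distrib]
      abel
    · have e1 : loc D ι (cz ρ c cj (z + z')) δ =
          loc D ι (cz ρ c cj z) δ + loc D ι (cz ρ c cj z') δ := ac_add _ _ _
      rw [e1, h3, h3', Matrix.mulVec_add]
      simp only [Pi.add_apply, add_smul, Finset.sum_add_distrib]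
      abel
  zero_mem' := by
    refine ⟨⟨fun σ τ => by simp, BV.zero, fun p _ ι hp σ hσ => rfl⟩, ⟨0, 0, fun δ => ?_⟩,
      ⟨0, 0, fun δ => ?_⟩⟩
    · have e1 : loc D ι (0 : GK s → Fin n → F) δ = 0 := rfl
      rw [e1]; simp
    · have e1 : loc D ι (cz ρ c cj (0 : GK s → Fin n → F)) δ = 0 := by
        unfold loc cz ac
        exact Matrix.mulVec_zero _
      rw [e1]; simp
  smul_mem' := by
    rintro e z ⟨h1, ⟨a, v, h2⟩, ⟨b, w, h3⟩⟩
    refine ⟨⟨fun σ τ => ?_, h1.cont.smul e, fun p _ ι hp σ hσ => ?_⟩,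
      ⟨e • a, e • v, fun δ => ?_⟩, ⟨e • b, e • w, fun δ => ?_⟩⟩
    · rw [Pi.smul_apply, Pi.smul_apply, Pi.smul_apply, h1.mul, map_smul, smul_add]
    · rw [Pi.smul_apply, h1.unr p ι hp σ hσ, smul_zero]
    · have e1 : loc D ι (e • z) δ = e • loc D ι z δ := rfl
      rw [e1, h2, Matrix.mulVec_smul, smul_add, smul_sub, Finset.smul_sum]
      simp only [Pi.smul_apply, smul_eq_mul, mul_smul]
    · have e1 : loc D ι (cz ρ c cj (e • z)) δ = e • loc D ι (cz ρ c cj z) δ := ac_smul _ _ _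
      rw [e1, h3, Matrix.mulVec_smul, smul_add, smul_sub, Finset.smul_sum]
      simp only [Pi.smul_apply, smul_eq_mul, mul_smul]

lemma mem_wk [IsNoetherianRing A] (D : Dt s d c cj) (ι : Emb 2) {k : ℕ}
    {l : Fin k → Dec ι → Fin n → F}
    {Ω : Matrix (Fin n) (Fin n) F} (hL : Lagrangian F ρ Ω ι l) (z : GK s → Fin n → F) :
    z ∈ wk D ρ ι l ↔ Sel (Ω * mat F ρ c) (rK s ρ) (fun σ => cyc (rsc s σ)) cj ι
      (fun i δ => l i (up s ι δ)) z := by
  constructor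
  · rintro ⟨h1, h2, h3⟩
    refine ⟨h1, (span_iff D ι l z).2 h2, fun i => ?_⟩
    rw [orth_iff D ι (l i) z]
    exact (hL _ (loc_coc D ι (cz_GC D h1))).1 h3 i
  · rintro ⟨h1, h2, h3⟩
    refine ⟨h1, (span_iff D ι l z).1 h2, (hL _ (loc_coc D ι (cz_GC D h1))).2 fun i => ?_⟩
    rw [← orth_iff D ι (l i) z]
    exact h3 i

end Pool.Agent.H502.PQ
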